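import Mathlib
import Pool.Agent.Helper5.Polynormed

/-!
Fréchet modules over a Fréchet algebra, their projective tensor products (given by universal
properties) and flatness.
-/

set_option autoImplicit false

namespace Pool.Agent.Q19.FreS

open Pool.Agent.Helper5

universe u v

/-- A Fréchet space: a complete Hausdorff locally convex space over `ℂ` (`IsPolynormed`) whose
topology is first countable, i.e. metrizable. -/
class IsFre (X : Type u) [AddCommGroup X] [Module ℂ X] [UniformSpace X] : Prop
    extends IsPolynormed X where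
  firstCountable : FirstCountableTopology X

attribute [instance] IsFre.firstCountable

/-- A Fréchet space together with a family of continuous linear operators indexed by `ι`.
One-sided modules over an algebra `A` are obtained for `ι = A` (`IsLeft`, `IsRight`), bimodules
for `ι = A ⊕ A` (`IsBi`). -/
structure FM (ι : Type v) where
  /-- the underlying Fréchet space -/
  carrier : Type u
  [grp : AddCommGroup carrier]
  [mod : Module ℂ carrier]
  [unif : UniformSpace carrier]
  [fre : IsFre carrier]
  /-- the operators -/
  op : ι → carrier → carrier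
  lin : ∀ i, IsContLin (op i)

attribute [instance] FM.grp FM.mod FM.unif FM.fre

variable {ι : Type v}

/-- Morphisms: continuous linear maps commuting with the operators. -/
structure IsMor {M N : FM.{u, v} ι} (f : M.carrier → N.carrier) : Prop where
  lin : IsContLin f
  comm : ∀ i m, f (M.op i m) = N.op i (f m)

/-- A model of the tensor product `N ⊗̂_A X`: a Fréchet space `T` with a jointly continuous
balanced bilinear map `t : N × X → T` through which every jointly continuous balanced bilinear
map from `N × X` to a Fréchet space factors by a unique continuous linear map. (The quotient of the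
completed projective tensor product `N ⊗̂ X` by the closed linear span of all
`(n i) ⊗ x - n ⊗ (i x)` is such a model, and any two models are canonically isomorphic.) -/
structure Tensor (N X : FM.{u, v} ι) where
  /-- the space -/
  T : Type u
  [grp : AddCommGroup T]
  [mod : Module ℂ T]
  [unif : UniformSpace T]
  [fre : IsFre T]
  /-- the elementary tensors -/
  t : N.carrier → X.carrier → T
  bil : IsContBilin t
  bal : ∀ i n x, t (N.op i n) x = t n (X.op i x)
  univ : ∀ (Z : Type u) [AddCommGroup Z] [Module ℂ Z] [UniformSpace Z] [IsFre Z]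
    (β : N.carrier → X.carrier → Z), IsContBilin β →
    (∀ i n x, β (N.op i n) x = β n (X.op i x)) →
    ∃! φ : T → Z, IsContLin φ ∧ ∀ n x, φ (t n x) = β n x

attribute [instance] Tensor.grp Tensor.mod Tensor.unif Tensor.fre

/-- Exactness of `0 → E → F → G → 0`. -/
def Exact3 {E F G : Type u} [AddCommGroup E] [AddCommGroup F] [AddCommGroup G]
    (i : E → F) (p : F → G) : Prop :=
  Function.Injective i ∧ (∀ y, p y = 0 ↔ ∃ x, i x = y) ∧ Function.Surjective p

/-- `i` and `p` are morphisms, `0 → E → F → G → 0` is exact and it splits as a sequence of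
topological vector spaces: there are continuous linear `r : F → E` and `s : G → F` with `r i = 1`,
`p s = 1` and `i r + s p = 1`. -/
def Adm {E F G : FM.{u, v} ι} (i : E.carrier → F.carrier) (p : F.carrier → G.carrier) : Prop :=
  IsMor i ∧ IsMor p ∧ Exact3 i p ∧
    ∃ (r : F.carrier → E.carrier) (s : G.carrier → F.carrier), IsContLin r ∧ IsContLin s ∧
      (∀ x, r (i x) = x) ∧ (∀ z, p (s z) = z) ∧ ∀ y, i (r y) + s (p y) = y

/-- Exactness of the sequence `0 → E ⊗̂_A X → F ⊗̂_A X → G ⊗̂_A X → 0` obtained from `i : E → F` and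
`p : F → G`: for all models of the three tensor products the continuous linear maps induced
by `i ⊗ 1` and `p ⊗ 1` form an exact sequence. -/
def TensExactL {E F G : FM.{u, v} ι} (i : E.carrier → F.carrier) (p : F.carrier → G.carrier)
    (X : FM.{u, v} ι) : Prop :=
  ∀ (TE : Tensor E X) (TF : Tensor F X) (TG : Tensor G X) (I : TE.T → TF.T) (P : TF.T → TG.T),
    IsContLin I → IsContLin P → (∀ e x, I (TE.t e x) = TF.t (i e) x) →
    (∀ f x, P (TF.t f x) = TG.t (p f) x) → Exact3 I P

/-- Exactness of the sequence `0 → Y ⊗̂_A E → Y ⊗̂_A F → Y ⊗̂_A G → 0` obtained from `i : E → F` and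
`p : F → G`. -/
def TensExactR {E F G : FM.{u, v} ι} (i : E.carrier → F.carrier) (p : F.carrier → G.carrier)
    (Y : FM.{u, v} ι) : Prop :=
  ∀ (TE : Tensor Y E) (TF : Tensor Y F) (TG : Tensor Y G) (I : TE.T → TF.T) (P : TF.T → TG.T),
    IsContLin I → IsContLin P → (∀ y e, I (TE.t y e) = TF.t y (i e)) →
    (∀ y f, P (TF.t y f) = TG.t y (p f)) → Exact3 I P

section Modules

variable (A : Type u) [NonUnitalRing A] [Module ℂ A] [UniformSpace A] [IsFre A]

/-- `A` is a Fréchet algebra: the multiplication is a jointly continuous bilinear map of the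
Fréchet space `A` (associativity is part of `NonUnitalRing`). -/
def IsFreAlg : Prop := IsContBilin (fun a b : A => a * b)

/-- The left Fréchet `A`-modules; `M.op a m` is `a m`. -/
structure IsLeft (M : FM.{u, u} A) : Prop where
  bil : IsContBilin M.op
  mul : ∀ a b m, M.op (a * b) m = M.op a (M.op b m)

/-- The right Fréchet `A`-modules; `M.op a m` is `m a`. -/
structure IsRight (M : FM.{u, u} A) : Prop where
  bil : IsContBilin M.op
  mul : ∀ a b m, M.op (a * b) m = M.op b (M.op a m)

/-- The Fréchet `A`-bimodules; `M.op (inl a) m` is `a m` and `M.op (inr b) m` is `m b`. -/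
structure IsBi (M : FM.{u, u} (A ⊕ A)) : Prop where
  bil_left : IsContBilin (fun a m => M.op (Sum.inl a) m)
  mul_left : ∀ a b m, M.op (Sum.inl (a * b)) m = M.op (Sum.inl a) (M.op (Sum.inl b) m)
  bil_right : IsContBilin (fun a m => M.op (Sum.inr a) m)
  mul_right : ∀ a b m, M.op (Sum.inr (a * b)) m = M.op (Sum.inr b) (M.op (Sum.inr a) m)
  comm : ∀ a b m, M.op (Sum.inl a) (M.op (Sum.inr b) m) = M.op (Sum.inr b) (M.op (Sum.inl a) m)

/-- `X` is flat in `A`-mod: for every admissible sequence `0 → E → F → G → 0` of right Fréchet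
modules the sequence `0 → E ⊗̂_A X → F ⊗̂_A X → G ⊗̂_A X → 0` is exact. -/
def FlatL (X : FM.{u, u} A) : Prop :=
  ∀ E F G : FM.{u, u} A, IsRight A E → IsRight A F → IsRight A G →
    ∀ i p, Adm (E := E) (F := F) (G := G) i p → TensExactL i p X

/-- `Y` is flat in mod-`A`: for every admissible sequence `0 → E → F → G → 0` of left Fréchet
modules the sequence `0 → Y ⊗̂_A E → Y ⊗̂_A F → Y ⊗̂_A G → 0` is exact. -/
def FlatR (Y : FM.{u, u} A) : Prop :=
  ∀ E F G : FM.{u, u} A, IsLeft A E → IsLeft A F → IsLeft A G →
    ∀ i p, Adm (E := E) (F := F) (G := G) i p → TensExactR i p Y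

variable {A}

/-- The two families of operators interchanged. A bimodule `N` is a right module over
`A^e = A_+ ⊗̂ A_+^op` by `n (a ⊗ b) = b n a`; hence for bimodules `N` and `Z` the balanced maps on
`N.swap × Z` are the bilinear maps with `β (n a) z = β n (a z)` and `β (b n) z = β n (z b)`, and
the models of `N ⊗̂_{A^e} Z` are the objects of `Tensor N.swap Z`. -/
def FM.swap (M : FM.{u, u} (A ⊕ A)) : FM.{u, u} (A ⊕ A) where
  carrier := M.carrier
  op i := M.op i.swap
  lin i := M.lin i.swap

variable (A)

/-- `Z` is flat in `A`-mod-`A`: for every admissible sequence `0 → E → F → G → 0` of Fréchet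
bimodules the sequence `0 → E ⊗̂_{A^e} Z → F ⊗̂_{A^e} Z → G ⊗̂_{A^e} Z → 0` is exact, where
`A^e = A_+ ⊗̂ A_+^op`. -/
def FlatB (Z : FM.{u, u} (A ⊕ A)) : Prop :=
  ∀ E F G : FM.{u, u} (A ⊕ A), IsBi A E → IsBi A F → IsBi A G →
    ∀ i p, Adm (E := E) (F := F) (G := G) i p →
      TensExactL (E := E.swap) (F := F.swap) (G := G.swap) i p Z

end Modules

/-- `Z` is the bimodule `X ⊗̂ Y`: the space `Z` with `t` is the completed projective tensor product
of the Fréchet spaces `X` and `Y`, and `a (x ⊗ y) b = (a x) ⊗ (y b)`. -/
structure IsOuter {A : Type u} (X Y : FM.{u, u} A) (Z : FM.{u, u} (A ⊕ A))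
    (t : X.carrier → Y.carrier → Z.carrier) : Prop where
  proj : IsProjTensor t
  left : ∀ a x y, Z.op (Sum.inl a) (t x y) = t (X.op a x) y
  right : ∀ b x y, Z.op (Sum.inr b) (t x y) = t x (Y.op b y)

end Pool.Agent.Q19.FreS
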