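import Mathlib
import Pool.Agent.Q19.FreS.Stmt

/-!
Flat resolutions of Fréchet bimodules, weak homological dimension and weak bidimension.
-/

set_option autoImplicit false

namespace Pool.Agent.Q19.FreS

open Pool.Agent.Helper5

universe u v w

instance isFre_complex : IsFre ℂ where
  uniformAddGroup := inferInstance
  continuousSMul := inferInstance
  polynormable := inferInstance
  t2 := inferInstance
  complete := inferInstance
  firstCountable := inferInstance

instance isFre_prod {X : Type v} {Y : Type w} [AddCommGroup X] [Module ℂ X] [UniformSpace X]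
    [IsFre X] [AddCommGroup Y] [Module ℂ Y] [UniformSpace Y] [IsFre Y] :
    IsFre (X × Y) where
  uniformAddGroup := inferInstance
  continuousSMul := inferInstance
  polynormable := inferInstance
  t2 := inferInstance
  complete := inferInstance
  firstCountable := inferInstance

section Modules

variable (A : Type u) [NonUnitalRing A] [Module ℂ A] [UniformSpace A] [IsFre A]

variable {A} in
/-- The bimodule `A` with the actions by multiplication. -/
def regular (hA : IsFreAlg A) : FM.{u, u} (A ⊕ A) where
  carrier := A
  op := Sum.elim (fun a x => a * x) (fun b x => x * b)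
  lin := by
    rintro (a | b)
    · exact hA.isContLin_right a
    · exact hA.isContLin_left b

variable {A} in
/-- The bimodule `A_+ = ℂ ⊕ A` (the unitization of `A`) with
`b (λ, a) = (0, λ b + b a)` and `(λ, a) b = (0, λ b + a b)`. -/
noncomputable def unitization (hA : IsFreAlg A) : FM.{u, u} (A ⊕ A) where
  carrier := ℂ × A
  op := Sum.elim (fun b c => (0, c.1 • b + b * c.2)) (fun b c => (0, c.1 • b + c.2 * b))
  lin := by
    rintro (b | b)
    · refine ⟨fun x y => ?_, fun t x => ?_, ?_⟩
      · change ((0 : ℂ), (x.1 + y.1) • b + b * (x.2 + y.2)) =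
          (0 + 0, (x.1 • b + b * x.2) + (y.1 • b + b * y.2))
        rw [add_smul, mul_add, add_zero]
        congr 1
        abel
      · change ((0 : ℂ), (t * x.1) • b + b * (t • x.2)) = (t • (0 : ℂ), t • (x.1 • b + b * x.2))
        have : b * (t • x.2) = t • (b * x.2) := hA.smul_right t b x.2
        rw [this, mul_smul, smul_add, smul_zero]
      · exact continuous_const.prodMk ((continuous_fst.smul continuous_const).add
          ((hA.cont_right b).comp continuous_snd))
    · refine ⟨fun x y => ?_, fun t x => ?_, ?_⟩
      · change ((0 : ℂ), (x.1 + y.1) • b + (x.2 + y.2) * b) =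
          (0 + 0, (x.1 • b + x.2 * b) + (y.1 • b + y.2 * b))
        rw [add_smul, add_mul, add_zero]
        congr 1
        abel
      · change ((0 : ℂ), (t * x.1) • b + (t • x.2) * b) = (t • (0 : ℂ), t • (x.1 • b + x.2 * b))
        have : (t • x.2) * b = t • (x.2 * b) := hA.smul_left t x.2 b
        rw [this, mul_smul, smul_add, smul_zero]
      · exact continuous_const.prodMk ((continuous_fst.smul continuous_const).add
          ((hA.cont_left b).comp continuous_snd))

/-- A flat resolution `⋯ → P 2 → P 1 → P 0 → X → 0` of the bimodule `X`: the `P n` are flat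
Fréchet bimodules, the maps are morphisms of bimodules, and the augmented complex is admissible:
it has a contracting homotopy `s`, `h 0`, `h 1`, … made of continuous linear maps. -/
structure FlatResolution (X : FM.{u, u} (A ⊕ A)) where
  /-- the terms -/
  P : ℕ → FM.{u, u} (A ⊕ A)
  isBi : ∀ n, IsBi A (P n)
  flat : ∀ n, FlatB A (P n)
  /-- the differentials -/
  d : ∀ n, (P (n + 1)).carrier → (P n).carrier
  d_mor : ∀ n, IsMor (d n)
  /-- the augmentation -/
  aug : (P 0).carrier → X.carrier
  aug_mor : IsMor aug
  d_d : ∀ n x, d n (d (n + 1) x) = 0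
  aug_d : ∀ x, aug (d 0 x) = 0
  /-- the contracting homotopy -/
  s : X.carrier → (P 0).carrier
  s_lin : IsContLin s
  /-- the contracting homotopy -/
  h : ∀ n, (P n).carrier → (P (n + 1)).carrier
  h_lin : ∀ n, IsContLin (h n)
  aug_s : ∀ x, aug (s x) = x
  s_aug : ∀ x, s (aug x) + d 0 (h 0 x) = x
  h_d : ∀ n x, h n (d n x) + d (n + 1) (h (n + 1) x) = x

variable {A}

/-- The length of a resolution: the least `n` with `P i = 0` for all `i > n`, or `∞` if there is
no such `n`. -/
noncomputable def FlatResolution.length {X : FM.{u, u} (A ⊕ A)} (R : FlatResolution A X) : ℕ∞ :=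
  sInf {n : ℕ∞ | ∀ i : ℕ, n < i → ∀ x : (R.P i).carrier, x = 0}

variable (A)

/-- The weak homological dimension of the bimodule `X`: the least length of a flat resolution. -/
noncomputable def wdh (X : FM.{u, u} (A ⊕ A)) : ℕ∞ := ⨅ R : FlatResolution A X, R.length

variable {A}

/-- The weak bidimension of `A`: the weak homological dimension of the bimodule `A_+`. -/
noncomputable def wdb (hA : IsFreAlg A) : ℕ∞ := wdh A (unitization hA)

end Modules

end Pool.Agent.Q19.FreS
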